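import Pool.Agent.Helper8.SPV.Stmts3
import Pool.Agent.Helper71.ImgChart

/-! # The projective model -/

set_option autoImplicit false

namespace Pool.Agent.Helper8.SPV

open AlgebraicGeometry CategoryTheory CategoryTheory.Limits
open Pool.Agent.Helper71 (PP PPtoSpec pt hsub)

attribute [local instance] MvPolynomial.gradedAlgebra

/-- a prime of a subring of a field is the trace of the maximal ideal of a valuation ring -/
theorem pMODEL_val {k L : Type} [Field k] [Field L] [Algebra k L] (B : Subalgebra k L)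
    (q : Ideal B) [q.IsPrime] :
    ∃ R : ValuationSubring L, (∀ a ∈ B, a ∈ R) ∧
      ∀ a : B, (a : L) ≠ 0 → (a : L)⁻¹ ∈ R → a ∉ q := by
  have hinj : Function.Injective B.val.toRingHom := Subtype.val_injective
  have hu : ∀ y : q.primeCompl, IsUnit (B.val.toRingHom y) := by
    rintro ⟨y, hy⟩
    rw [isUnit_iff_ne_zero]
    intro h0
    apply hy
    have : y = 0 := hinj (by rw [h0, map_zero])
    rw [this]
    exact q.zero_mem
  obtain ⟨f, hf⟩ : ∃ f : Localization.AtPrime q →+* L, ∀ a : B, f (algebraMap B _ a) = a :=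
    ⟨IsLocalization.lift hu, fun a => IsLocalization.lift_eq hu a⟩
  obtain ⟨A, h, hA⟩ := IsLocalRing.exists_factor_valuationRing f
  have hmem : ∀ a ∈ B, a ∈ A := by
    intro a ha
    have := h (algebraMap B _ ⟨a, ha⟩)
    rwa [hf] at this
  refine ⟨A, hmem, ?_⟩
  intro a ha0 hai haq
  have h1 : IsUnit (f.codRestrict A.toSubring h (algebraMap B (Localization.AtPrime q) a)) := by
    refine IsUnit.of_mul_eq_one ⟨(a : L)⁻¹, hai⟩ ?_
    apply Subtype.ext
    change f (algebraMap B _ a) * (a : L)⁻¹ = 1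
    rw [hf]
    exact mul_inv_cancel₀ ha0
  have h2 := hA.map_nonunit _ h1
  exact (IsLocalization.AtPrime.isUnit_to_map_iff (Localization.AtPrime q) q a).1 h2 haq

section

variable {k L : Type} [Field k] [Field L] [Algebra k L] {n : ℕ}

theorem pMODEL_chart (m0 : Fin (n + 1)) (z : Fin (n + 1) → L) (hz0 : IsUnit (z m0))
    (m : Fin (n + 1)) (hzm : z m ≠ 0) (B : Subalgebra k L)
    (hB : B = Algebra.adjoin k (Set.range fun j => z j / z m)) :
    ∃ (c : Spec (.of B) ⟶ (pt (k := k) m0 z hz0).image) (_ : IsOpenImmersion c),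
      c.opensRange = (pt (k := k) m0 z hz0).imageι ⁻¹ᵁ
        Proj.basicOpen (hsub k n) (MvPolynomial.X m) ∧
      c ≫ (pt (k := k) m0 z hz0).imageι ≫ PPtoSpec k n =
        Spec.map (CommRingCat.ofHom (algebraMap k B)) ∧
      Spec.map (CommRingCat.ofHom (algebraMap B L)) ≫ c = (pt (k := k) m0 z hz0).toImage ∧
      ∀ (q : Spec (.of B)) (j : Fin (n + 1)) (a : B), (a : L) = z j / z m → a ∉ q.asIdeal →
        c q ∈ (pt (k := k) m0 z hz0).imageι ⁻¹ᵁ
          Proj.basicOpen (hsub k n) (MvPolynomial.X j) := by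
  have hmem : ∀ j, z j / z m ∈ B := by
    intro j
    rw [hB]
    exact Algebra.subset_adjoin ⟨j, rfl⟩
  have hwm : (⟨z m / z m, hmem m⟩ : B) = 1 := Subtype.ext (div_self hzm)
  have hu : IsUnit (⟨z m / z m, hmem m⟩ : B) := by rw [hwm]; exact isUnit_one
  have hsurj : Function.Surjective
      (MvPolynomial.aeval (fun j => (⟨z j / z m, hmem j⟩ : B)) :
        MvPolynomial (Fin (n + 1)) k →ₐ[k] B) := by
    rintro ⟨a, ha⟩
    have ha' := ha
    rw [hB, Algebra.adjoin_range_eq_range_aeval] at ha'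
    obtain ⟨P, hP⟩ := ha'
    refine ⟨P, Subtype.ext ?_⟩
    have := MvPolynomial.aeval_algebraMap_apply (R := k) L
      (fun j => (⟨z j / z m, hmem j⟩ : B)) P
    exact this.symm.trans hP
  obtain ⟨c, hc, h1, h2, h3⟩ := Pool.Agent.Helper71.exists_chart (k := k) m0 z hz0 m hzm B.val
    Subtype.val_injective (fun j => ⟨z j / z m, hmem j⟩) hwm
    (fun j => mul_div_cancel₀ _ hzm) hsurj hu
  refine ⟨c, hc, h1, ?_, h3, ?_⟩
  · rw [← Category.assoc, h2, Pool.Agent.Helper71.pt_over]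
  · intro q j a ha haq
    change ((pt (k := k) m0 z hz0).imageι (c q)) ∈ Proj.basicOpen (hsub k n) (MvPolynomial.X j)
    rw [← Scheme.Hom.comp_apply, h2, Proj.mem_basicOpen]
    intro hX
    have h4 := (Pool.Agent.Helper71.pt_mem m (fun j => (⟨z j / z m, hmem j⟩ : B)) hu
      (MvPolynomial.X j) (Pool.Agent.Helper71.X_mem_hsub j) Nat.one_pos q).1 hX
    rw [MvPolynomial.aeval_X] at h4
    apply haq
    have : a = ⟨z j / z m, hmem j⟩ := Subtype.ext ha
    rw [this]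
    exact h4

/-- the closure of a point of projective space is covered by the charts which dominate the
valuation rings -/
theorem pMODEL_main (z : Fin (n + 1) → L) (hz : ∀ m, z m ≠ 0) {I : Type} (mi : I → Fin (n + 1))
    (B : I → Subalgebra k L)
    (hB : ∀ i, B i = Algebra.adjoin k (Set.range fun j => z j / z (mi i)))
    (hcov : ∀ R : ValuationSubring L, (∀ c, algebraMap k L c ∈ R) → ∃ i, ∀ a ∈ B i, a ∈ R) :
    ∃ (X : Scheme.{0}) (s : X ⟶ Spec (.of k)) (c : ∀ i, Spec (.of (B i)) ⟶ X),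
      IsProjVar s ∧ (∀ i, IsOpenImmersion (c i)) ∧
      (∀ i, c i ≫ s = Spec.map (CommRingCat.ofHom (algebraMap k (B i)))) ∧
      (∀ i j, Spec.map (CommRingCat.ofHom (algebraMap (B i) L)) ≫ c i =
        Spec.map (CommRingCat.ofHom (algebraMap (B j) L)) ≫ c j) ∧
      ∀ p : X, ∃ i, p ∈ Set.range (c i) := by
  have hz0 : IsUnit (z 0) := isUnit_iff_ne_zero.2 (hz 0)
  have hint : IsIntegral (pt (k := k) 0 z hz0).image := Pool.Agent.Helper71.isIntegral_image _
  choose c hc h1 h2 h3 h4 using fun i => pMODEL_chart (k := k) 0 z hz0 (mi i) (hz _) (B i) (hB i)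
  refine ⟨(pt (k := k) 0 z hz0).image, (pt (k := k) 0 z hz0).imageι ≫ PPtoSpec k n, c,
    ⟨hint, n, (pt (k := k) 0 z hz0).imageι, inferInstance, rfl⟩, hc, h2,
    fun i j => (h3 i).trans (h3 j).symm, ?_⟩
  intro p
  obtain ⟨m, hm⟩ : ∃ m, (pt (k := k) 0 z hz0).imageι p ∈
      Proj.basicOpen (hsub k n) (MvPolynomial.X m) := by
    have : (pt (k := k) 0 z hz0).imageι p ∈
        ⨆ i : Fin (n + 1), Proj.basicOpen (hsub k n) (MvPolynomial.X i) := by
      rw [Pool.Agent.Helper71.iSup_basicOpen_X]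
      trivial
    simpa using this
  obtain ⟨c', hc', h1', h2', h3', h4'⟩ := pMODEL_chart (k := k) 0 z hz0 m (hz m)
    (Algebra.adjoin k (Set.range fun j => z j / z m)) rfl
  have hp : p ∈ c'.opensRange := by rw [h1']; exact hm
  obtain ⟨q, rfl⟩ := hp
  have hqp := PrimeSpectrum.isPrime q
  obtain ⟨R, hR1, hR2⟩ := pMODEL_val
    (Algebra.adjoin k (Set.range fun j => z j / z m)) (PrimeSpectrum.asIdeal q)
  obtain ⟨i, hi⟩ := hcov R (fun c => hR1 _ (Subalgebra.algebraMap_mem _ c))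
  refine ⟨i, ?_⟩
  have hq := h4' q (mi i) ⟨z (mi i) / z m, Algebra.subset_adjoin ⟨mi i, rfl⟩⟩ rfl (by
    apply hR2
    · exact div_ne_zero (hz _) (hz _)
    · rw [inv_div]
      apply hi
      rw [hB i]
      exact Algebra.subset_adjoin ⟨m, rfl⟩)
  rw [← h1 i] at hq
  exact hq

end

/-- the homogeneous coordinates -/
noncomputable def pMODEL_z {L : Type} [Field L] (t w x y : L) : Fin 11 → L :=
  ![1, t, w, x, y, t * y, w * y, t * w ^ 3, w ^ 3, x * w ^ 2, w ^ 4]

/-- the coordinate of the chart -/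
def pMODEL_m : Fin 4 → Fin 11 := ![0, 4, 10, 6]

/-- the coordinates which give the generators of the charts -/
def pMODEL_J : Fin 4 → Fin 4 → Fin 11 := ![![1, 2, 3, 4], ![5, 6, 3, 0], ![7, 8, 9, 6], ![5, 4, 9, 10]]

/-- the exponents of the coordinates, as monomials in the generators of the charts -/
def pMODEL_E : Fin 4 → Fin 11 → Fin 4 → ℕ :=
  ![![![0, 0, 0, 0], ![1, 0, 0, 0], ![0, 1, 0, 0], ![0, 0, 1, 0], ![0, 0, 0, 1], ![1, 0, 0, 1],
      ![0, 1, 0, 1], ![1, 3, 0, 0], ![0, 3, 0, 0], ![0, 2, 1, 0], ![0, 4, 0, 0]],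
    ![![0, 0, 0, 1], ![1, 0, 0, 1], ![0, 1, 0, 1], ![0, 0, 1, 0], ![0, 0, 0, 0], ![1, 0, 0, 0],
      ![0, 1, 0, 0], ![1, 3, 0, 1], ![0, 3, 0, 1], ![0, 2, 1, 0], ![0, 4, 0, 1]],
    ![![0, 4, 0, 0], ![1, 3, 0, 0], ![0, 3, 0, 0], ![0, 2, 1, 0], ![0, 1, 0, 1], ![1, 0, 0, 1],
      ![0, 0, 0, 1], ![1, 0, 0, 0], ![0, 1, 0, 0], ![0, 0, 1, 0], ![0, 0, 0, 0]],
    ![![0, 4, 0, 1], ![1, 3, 0, 1], ![0, 3, 0, 1], ![0, 2, 1, 0], ![0, 1, 0, 0], ![1, 0, 0, 0],
      ![0, 0, 0, 0], ![1, 0, 0, 1], ![0, 1, 0, 1], ![0, 0, 1, 0], ![0, 0, 0, 1]]]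

theorem pMODEL_J_eq {L : Type} [Field L] (t w x y : L) (hw : w ≠ 0) (hy : y ≠ 0) (i l : Fin 4) :
    co t w x y i l = pMODEL_z t w x y (pMODEL_J i l) / pMODEL_z t w x y (pMODEL_m i) := by
  fin_cases i <;> fin_cases l <;> simp [co, pMODEL_z, pMODEL_J, pMODEL_m] <;> field_simp

theorem pMODEL_E_eq {L : Type} [Field L] (t w x y : L) (hw : w ≠ 0) (hy : y ≠ 0) (i : Fin 4)
    (j : Fin 11) :
    pMODEL_z t w x y j / pMODEL_z t w x y (pMODEL_m i) = ∏ l, co t w x y i l ^ pMODEL_E i j l := by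
  fin_cases i <;> fin_cases j <;>
    simp [co, pMODEL_z, pMODEL_E, pMODEL_m, Fin.prod_univ_four, hw, hy] <;> field_simp

theorem pMODEL_ch {k L : Type} [Field k] [Field L] [Algebra k L] (t w x y : L) (hw : w ≠ 0)
    (hy : y ≠ 0) (i : Fin 4) : ch k t w x y i = Algebra.adjoin k
      (Set.range fun j => pMODEL_z t w x y j / pMODEL_z t w x y (pMODEL_m i)) := by
  apply le_antisymm
  · apply Algebra.adjoin_le
    rintro _ ⟨l, rfl⟩
    rw [pMODEL_J_eq t w x y hw hy i l]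
    exact Algebra.subset_adjoin ⟨_, rfl⟩
  · apply Algebra.adjoin_le
    rintro _ ⟨j, rfl⟩
    change pMODEL_z t w x y j / pMODEL_z t w x y (pMODEL_m i) ∈ ch k t w x y i
    rw [pMODEL_E_eq t w x y hw hy i j]
    have h : ∀ l, co t w x y i l ∈ ch k t w x y i := fun l => Algebra.subset_adjoin ⟨l, rfl⟩
    exact Subalgebra.prod_mem _ fun l _ => pow_mem (h l) _

theorem st_MODEL (hEQ : ST_EQ) : ST_MODEL := by
  intro k L _ _ _ _ _ b t w x y hES hcov
  obtain ⟨hw, hy, -⟩ := hEQ k L b t w x y hES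
  have ht : t ≠ 0 := by
    have := hES.indep.ne_zero 0
    simpa using this
  have hx : x ≠ 0 := by
    have := hES.indep.ne_zero 1
    simpa using this
  obtain ⟨X, s, c, h1, h2, h3, h4, h5⟩ := pMODEL_main (k := k) (pMODEL_z t w x y)
    (by intro m; fin_cases m <;> simp [pMODEL_z, ht, hw, hx, hy]) pMODEL_m (ch k t w x y)
    (pMODEL_ch t w x y hw hy) hcov
  exact ⟨X, s, c, ⟨h1, h2, h3, h4, h5⟩⟩

end Pool.Agent.Helper8.SPV
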